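import Pool.Agent.NDR.StmtsG

set_option autoImplicit false

namespace Pool.Agent.NDR.H3

open Finset Pool.Agent.NDR

theorem tht_coeff {ι K : Type} [Field K] (v : ι) (h : Lr K ι) (m : ι → ℤ)
    (hm : (tht v h).coeff m ≠ 0) : h.coeff m ≠ 0 := by
  classical
  intro h0
  apply hm
  unfold tht
  rw [AddMonoidAlgebra.coeff_ofCoeff, Finsupp.sum_apply]
  unfold Finsupp.sum
  apply Finset.sum_eq_zero
  intro a _
  by_cases hne : a = m
  · subst hne
    rw [h0]
    simp
  · simp only [Finsupp.single_apply, if_neg hne]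

theorem pr_int {ι : Type} [Fintype ι] (κ : ι → ℤ) (m : ι → ℤ) : pr κ m = ∑ i, κ i * m i := by
  unfold pr
  simp

theorem pr_ov {ι : Type} [Fintype ι] (I : Finset ι) (κ : ι → ℤ) (hκ : ∀ i, i ∉ I → κ i = 0)
    (m a : ι → ℤ) (h : ∀ i ∈ I, m i = a i) : pr κ m = pr κ a := by
  rw [pr_int, pr_int]
  apply Finset.sum_congr rfl
  intro i _
  by_cases hi : i ∈ I
  · rw [h i hi]
  · rw [hκ i hi, zero_mul, zero_mul]

theorem rg_add {ι : Type} [Fintype ι] (I D : Finset ι) (A : Finset (ι → ℤ)) (v : ι → ℝ)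
    (e m : ι → ℤ) (he : e ∈ RG I D A v) (hm : m ∈ ov I A ∩ dd D) : e + m ∈ RG I D A v := by
  classical
  obtain ⟨⟨l, hl, hq⟩, hd⟩ := he
  obtain ⟨⟨a, ha, hma⟩, hmd⟩ := hm
  refine ⟨⟨fun b => l b + if b = a then 1 else 0, ?_, ?_⟩, ?_⟩
  · intro b
    have h1 := hl b
    by_cases hb : b = a
    · simp only [hb, if_true]
      have h2 := hl a
      linarith
    · simp only [hb, if_false]
      linarith
  · intro i hi
    have h1 := hq i hi
    have h2 : ∑ b ∈ A, (l b + if b = a then (1 : ℝ) else 0) * ((b i : ℤ) : ℝ) =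
        ∑ b ∈ A, l b * ((b i : ℤ) : ℝ) + ((a i : ℤ) : ℝ) := by
      have h3 : ∀ b ∈ A, (l b + if b = a then (1 : ℝ) else 0) * ((b i : ℤ) : ℝ) =
          l b * ((b i : ℤ) : ℝ) + (if b = a then ((b i : ℤ) : ℝ) else 0) := by
        intro b _
        by_cases hb : b = a
        · simp only [hb, if_true]
          ring
        · simp only [hb, if_false]
          ring
      rw [Finset.sum_congr rfl h3, Finset.sum_add_distrib]
      congr 1
      rw [Finset.sum_ite_eq' A a, if_pos ha]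
    rw [h2, ← h1]
    unfold shv
    rw [Pi.add_apply, hma i hi]
    push_cast
    ring
  · intro j hj
    rw [Pi.add_apply, hd j hj, hmd j hj, add_zero]

theorem low {ι : Type} [Fintype ι] (I D : Finset ι) (A : Finset (ι → ℤ)) (κ : ι → ℤ) (N : ℤ)
    (hH : Hgt I A κ N) (v : ι → ℝ) (e : ι → ℤ) (he : e ∈ RG I D A v) :
    ⌊- ∑ i, (κ i : ℝ) * v i⌋ ≤ pr κ e := by
  classical
  obtain ⟨hN, hκ, hA⟩ := hH
  obtain ⟨⟨l, hl, hq⟩, _⟩ := he
  have h1 : ∑ i, (κ i : ℝ) * (((e i : ℤ) : ℝ) + v i) = ∑ a ∈ A, l a * (N : ℝ) := by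
    have h2 : ∀ i ∈ (Finset.univ : Finset ι), (κ i : ℝ) * (((e i : ℤ) : ℝ) + v i) =
        ∑ a ∈ A, l a * ((κ i : ℝ) * ((a i : ℤ) : ℝ)) := by
      intro i _
      by_cases hi : i ∈ I
      · have h3 := hq i hi
        unfold shv at h3
        rw [h3, Finset.mul_sum]
        apply Finset.sum_congr rfl
        intro a _
        ring
      · rw [hκ i hi]
        simp
    rw [Finset.sum_congr rfl h2, Finset.sum_comm]
    apply Finset.sum_congr rfl
    intro a ha
    rw [← Finset.mul_sum]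
    congr 1
    have h4 := hA a ha
    rw [pr_int] at h4
    rw [← h4]
    push_cast
    rfl
  have h5 : 0 ≤ ∑ a ∈ A, l a * (N : ℝ) := by
    apply Finset.sum_nonneg
    intro a _
    apply mul_nonneg (hl a)
    exact_mod_cast hN.le
  have h6 : ((pr κ e : ℤ) : ℝ) = ∑ i, (κ i : ℝ) * ((e i : ℤ) : ℝ) := by
    rw [pr_int]
    push_cast
    rfl
  have h7 : ∑ i, (κ i : ℝ) * (((e i : ℤ) : ℝ) + v i) =
      ∑ i, (κ i : ℝ) * ((e i : ℤ) : ℝ) + ∑ i, (κ i : ℝ) * v i := by
    rw [← Finset.sum_add_distrib]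
    apply Finset.sum_congr rfl
    intro i _
    ring
  have h8 : - ∑ i, (κ i : ℝ) * v i ≤ ((pr κ e : ℤ) : ℝ) := by
    rw [h6]
    rw [← h1, h7] at h5
    linarith
  have h9 : ((⌊- ∑ i, (κ i : ℝ) * v i⌋ : ℤ) : ℝ) ≤ ((pr κ e : ℤ) : ℝ) := le_trans (Int.floor_le _) h8
  exact_mod_cast h9

theorem ung_up {ι K : Type} [Field K] (E I : Finset ι) (hEI : E ⊆ I) (F : Finset (ι → ℤ))
    (f : Lr K ι) (s : ℕ) (η : ℕ → Lr K ι) (h : Ung E I F f s η) : Ung I I F f s η := by
  classical
  obtain ⟨b, b', hb⟩ := h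
  refine ⟨fun i => if i ∈ E then b i else 0, b', ?_⟩
  rw [← hb]
  congr 1
  rw [← Finset.sum_subset hEI]
  · apply Finset.sum_congr rfl
    intro i hi
    simp only [hi, if_true]
  · intro i _ hi
    simp only [hi, if_false, zero_mul]

theorem rrz (h1 : GlwStmt) (h2 : KrmStmt) : RrzStmt := by
  classical
  intro ι _ I A D κ N hH hID hcov K _ _ _ f s η hf hη hF v T hT
  have hg := h1 ι K I D hID A f s η hf hη (by
    intro F hF1 hF2
    obtain ⟨E, hE, hU⟩ := hF F hF1 hF2
    apply ung_up E I _ F f s η hU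
    intro i hi
    rcases hcov i with h | h
    · exact h
    · exact absurd h (Finset.disjoint_left.mp hE hi)) v T hT
  have step : ∀ k : ℕ, (∀ i, s + 1 ≤ i → ExP (opg f η) (ix T k) (MS K (RG I D A v)) ⊥ i) →
      ∀ i, s + 1 ≤ i → ExP (opg f η) (ix T 0) (MS K (RG I D A v)) ⊥ i := by
    intro k
    induction k with
    | zero =>
      intro h
      exact h
    | succ k ih =>
      intro h
      apply ih
      have hix : ix T (k + 1) = insert (Sum.inr k) (ix T k) := by
        ext x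
        rcases x with x | x
        · simp [ix]
        · simp only [ix, Finset.inr_mem_disjSum, Finset.mem_range, Finset.mem_insert, Sum.inr.injEq]
          omega
      have hnot : (Sum.inr k : ι ⊕ ℕ) ∉ ix T k := by
        simp [ix]
      refine h2 (ι ⊕ ℕ) ι K κ N ⌊- ∑ i, (κ i : ℝ) * v i⌋ (RG I D A v) (opg f η) (ix T k)
        (Sum.inr k) (s + 1) hH.1 hnot ?_ ?_ ?_
      · intro t _ m hm
        have hm2 : m ∈ ov I A ∩ dd D := by
          rcases t with t | t
          · exact hf m (tht_coeff t f m hm)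
          · exact hη t m hm
        refine ⟨?_, ?_⟩
        · obtain ⟨⟨a, ha, hma⟩, _⟩ := hm2
          rw [pr_ov I κ hH.2.1 m a hma]
          exact hH.2.2 a ha
        · intro e he
          exact rg_add I D A v e m he hm2
      · intro e he
        exact low I D A κ N hH v e he
      · rw [← hix]
        exact h
  exact step s hg

end Pool.Agent.NDR.H3
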